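import Pool.Agent.KS6_3.ZL.H387R3.ZT.Stmts
import Pool.Agent.KS6_3.ZL.H962R3.Cnt

/-! Project ZT: the layers are function fields; the zeta series has integral coefficients; finite
ramification indices. -/

set_option autoImplicit false

open PowerSeries
open scoped PowerSeries.WithPiTopology

namespace Pool.Agent.H387R3.ZT

/-- Finite subextensions of a tower are function fields of curves. -/
theorem curve_layer {p : ℕ} [Fact p.Prime] {k F E : Type} [Field k] [Field F] [Algebra k F]
    [Field E] [Algebra F E] [Algebra k E] [IsScalarTower k F E] (h : H707R3.IsZpTower k F E p)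
    (K : IntermediateField F E) [FiniteDimensional F K] : H707R3.IsCurveFunctionField k K := by
  have := h.base.essFiniteType
  have hst : IsScalarTower k F K := inferInstance
  have hst2 : IsScalarTower k K E := by
    refine IsScalarTower.of_algebraMap_eq fun x => ?_
    rw [IsScalarTower.algebraMap_apply k F E, IsScalarTower.algebraMap_apply k F K]
    rfl
  refine ⟨Algebra.EssFiniteType.comp k F K, ?_, ?_⟩
  · have h1 := _root_.trdeg_add_eq (R := k) (S := F) (A := K)
    rw [h.base.trdeg_eq_one, _root_.trdeg_eq_zero (R := F) (A := K), add_zero] at h1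
    exact h1.symm
  · intro a ha
    have h1 : IsAlgebraic k (algebraMap K E a) := ha.algebraMap
    obtain ⟨c, hc⟩ := h.algClosed _ h1
    refine ⟨c, (algebraMap K E).injective ?_⟩
    rw [← hc, ← IsScalarTower.algebraMap_apply]

/-- The coefficients of the zeta series are natural numbers. -/
theorem zetaP_coeff (p : ℕ) [Fact p.Prime] {k K : Type} [Field k] [Finite k] [Field K] [Algebra k K]
    (hK : H707R3.IsCurveFunctionField k K) (m : ℕ) : ∃ N : ℕ, coeff m (zetaP p k K) = (N : ℂ_[p]) := by
  have hd : ∀ v : H707R3.Place k K, v.deg ≠ 0 := H707R3.deg_ne_zero hK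
  have hfin : ∀ m, {v : H707R3.Place k K | v.deg ≤ m}.Finite := H707R3.finite_deg_le hK
  have h := H962R3.Cnt.coeff_euler (p := p) (fun v : H707R3.Place k K => v.deg) hd hfin
    (fun _ => (1 : ℂ_[p])) m
  refine ⟨(H962R3.Cnt.eff_finite (fun v : H707R3.Place k K => v.deg) hd hfin m).toFinset.card, ?_⟩
  have h2 : zetaP p k K =
      ∏' v : H707R3.Place k K, (1 - C ((fun _ => (1 : ℂ_[p])) v) * X ^ v.deg)⁻¹ := by
    unfold zetaP
    congr 1
    funext v
    rw [map_one, one_mul]
  rw [h2, h]
  simp [H962R3.Cnt.Val]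

/-- The reciprocal roots of `P(X_n, s)` are algebraic. -/
theorem isIntegral_of_named {p : ℕ} [Fact p.Prime] {k F E : Type} [Field k] [Finite k] [Field F]
    [Algebra k F] [Field E] [Algebra F E] [Algebra k E] [IsScalarTower k F E]
    (h : H707R3.IsZpTower k F E p) (K : ℕ → IntermediateField F E) (A : ℕ → Multiset ℂ_[p])
    (hA : Named k F E K A) (n : ℕ) : ∀ α ∈ A n, IsIntegral ℚ_[p] α := by
  obtain ⟨h1, h2⟩ := hA n
  have hfd : FiniteDimensional F (K n) := by
    apply FiniteDimensional.of_finrank_pos
    rw [h1]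
    exact pow_pos (Fact.out : p.Prime).pos n
  have hK := curve_layer h (K n)
  apply H707R3.isIntegral_of_coeff
  intro j
  rw [← h2]
  -- all coefficients lie in the image of `ℚ_p`
  have key : ∀ f : PowerSeries ℂ_[p], (∀ m, ∃ x : ℚ_[p], coeff m f = algebraMap ℚ_[p] ℂ_[p] x) ↔
      ∃ g : PowerSeries ℚ_[p], f = PowerSeries.map (algebraMap ℚ_[p] ℂ_[p]) g := by
    intro f
    constructor
    · intro hf
      choose x hx using hf
      exact ⟨PowerSeries.mk x, by ext m; simp [hx]⟩
    · rintro ⟨g, rfl⟩ m
      exact ⟨coeff m g, by simp⟩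
  obtain ⟨g, hg⟩ := (key (zetaP p k (K n))).1 fun m => by
    obtain ⟨N, hN⟩ := zetaP_coeff p hK m
    exact ⟨N, by rw [hN]; simp⟩
  have h3 : zetaP p k (K n) * (1 - X) * (1 - C (Nat.card k : ℂ_[p]) * X) =
      PowerSeries.map (algebraMap ℚ_[p] ℂ_[p]) (g * (1 - X) * (1 - C (Nat.card k : ℚ_[p]) * X)) := by
    rw [hg]
    simp
  rw [h3, coeff_map]
  exact isAlgebraic_algebraMap _

/-- The ramification index is at most the degree. -/
theorem ramIdx_le_finrank {p : ℕ} [Fact p.Prime] (A : Multiset ℂ_[p]) (h : ∀ α ∈ A, IsIntegral ℚ_[p] α) :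
    H707R3.ramIdx (H707R3.genField A) ≤ Module.finrank ℚ_[p] (H707R3.genField A) := by
  have hfin : Finite {α | α ∈ A} := by
    classical
    exact (A.toFinset.finite_toSet.subset (fun x hx => by simpa using hx)).to_subtype
  have hfd : FiniteDimensional ℚ_[p] (H707R3.genField A) :=
    IntermediateField.finiteDimensional_adjoin (fun x hx => h x hx)
  have hdep : H707R3.DepBound (⊥ : IntermediateField ℚ_[p] ℂ_[p]) (H707R3.genField A)
      (Module.finrank ℚ_[p] (H707R3.genField A)) := by
    intro x hx
    let y : Fin (Module.finrank ℚ_[p] (H707R3.genField A) + 1) → H707R3.genField A :=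
      fun i => ⟨x i, hx i⟩
    have hdep : ¬ LinearIndependent ℚ_[p] y := by
      intro hli
      have := hli.fintype_card_le_finrank
      simp at this
    rw [Fintype.not_linearIndependent_iff] at hdep
    obtain ⟨g, hg, i, hi⟩ := hdep
    refine ⟨fun i => algebraMap ℚ_[p] ℂ_[p] (g i), fun i => IntermediateField.algebraMap_mem _ _,
      ⟨i, by simpa using hi⟩, ?_⟩
    have := congrArg (fun z : H707R3.genField A => (z : ℂ_[p])) hg
    simpa [y, Algebra.smul_def] using this
  exact (H707R3.relIndex_le hdep).2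

end Pool.Agent.H387R3.ZT
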