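import Pool.Agent.KS6_3.ZL.H387R3.ZT.D
import Pool.Agent.KS6_3.ZL.H387R3.ZT.Alg
import Pool.Agent.KS6_3.ZL.H510R3.ZT.C0
import Pool.Agent.KS6_3.ZL.H996R3.ZT.C1
import Pool.Agent.KS6_3.ZL.H309R3.Rec.C3
import Pool.Agent.KS6_3.ZL.H133R3.ZT.WA
import Pool.Agent.KS6_3.ZL.H22R3.ZT.Supp
import Pool.Agent.KS6_3.ZL.H525R3.ZT.E
import Pool.Agent.KS6_3.ZL.H962R3.WeilL
import Pool.Agent.KS6_3.ZL.H412R3.ZT.End

/-! Project ZT: assembly of the finished tasks. -/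

set_option autoImplicit false

namespace Pool.Agent.H387R3.ZT

theorem asm (hA : TaskA) (hB : TaskB) (hC2 : TaskC2) (hFr : TaskFrob) (hU : TaskUnr) (hF : TaskF)
    (hG : TaskG) : Final := by
  have hC : TaskC := H309R3.Rec.taskC3 H510R3.ZT.taskC0 H996R3.ZTC1.taskC1 hC2
  have hRec : Rec := taskD hB hA hC H133R3.ZT.taskWA H22R3.ZT.taskSupp
  have hW : Weil := H962R3.WeilL.taskWeil hRec H525R3.ZT.taskE H22R3.ZT.taskDeg0 hFr hU
  exact H412R3.ZT.taskEnd hW hF hG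

end Pool.Agent.H387R3.ZT
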