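import Pool.Agent.KS6_3.ZL.H387R3.ZT.Stmts

/-! Project ZT, task D: reciprocity with modulus supported on the ramified places. -/

set_option autoImplicit false

namespace Pool.Agent.H387R3.ZT

lemma cast_sum {k F : Type} [Field k] [Field F] [Algebra k F] {N : ℕ} [NeZero N]
    (g : F) (hg : {v : FF.Place k F | v.ord g ≠ 0}.Finite) (z : FF.Place k F → ZMod N) :
    ∑ᶠ v : FF.Place k F, v.ord g • z v =
      ((∑ᶠ v : FF.Place k F, v.ord g * ((z v).val : ℤ) : ℤ) : ZMod N) := by
  have hfin : (Function.support fun v : FF.Place k F => v.ord g * ((z v).val : ℤ)).Finite := by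
    refine hg.subset ?_
    intro v hv h0
    apply hv
    simp [h0]
  have h := (Int.castAddHom (ZMod N)).map_finsum hfin
  simp only [Int.coe_castAddHom] at h
  refine Eq.trans ?_ h.symm
  apply finsum_congr
  intro v
  rw [zsmul_eq_mul]
  push_cast
  rw [ZMod.natCast_zmod_val]

theorem taskD : TaskD := by
  intro hB hA hC hWA hSupp p n _ k F K _ _ _ _ _ _ _ _ _ _ Φ S hS fr hfr
  have hpn : NeZero (p ^ n) := ⟨pow_ne_zero _ (Fact.out : p.Prime).ne_zero⟩
  obtain ⟨hfs, hinf⟩ := hSupp k F
  set a : FF.Place k F → ℕ := fun v => ((Φ (fr v)).toAdd).val with ha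
  have key : ∀ T : Finset (FF.Place k F), T.Nonempty → S ⊆ T → ∃ M0 : ℕ, 1 ≤ M0 ∧ ∀ g : F, g ≠ 0 →
      (∀ x ∈ T, g = 1 ∨ (M0 : ℤ) ≤ x.ord (g - 1)) →
      ((p ^ n : ℕ) : ℤ) ∣ ∑ᶠ v : FF.Place k F, v.ord g * (a v : ℤ) := by
    intro T hT hST
    obtain ⟨w, hw0, hwr, hwf⟩ := hB hA p n k F K Φ T hT (fun v hv => hS v fun h => hv (hST h))
    exact hC p n k F T w hT hw0 hwr a fun v hv => hwf v hv (fr v) (hfr v fun h => hv (hST h))
  have conv : ∀ g : F, ((p ^ n : ℕ) : ℤ) ∣ ∑ᶠ v : FF.Place k F, v.ord g * (a v : ℤ) →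
      ∑ᶠ v : FF.Place k F, v.ord g • (Φ (fr v)).toAdd = 0 := by
    intro g hg
    rw [cast_sum g (hfs g) fun v => (Φ (fr v)).toAdd]
    exact (ZMod.intCast_zmod_eq_zero_iff_dvd _ _).2 hg
  rcases S.eq_empty_or_nonempty with hSe | hSn
  · refine ⟨1, le_rfl, ?_⟩
    intro g hg0 _
    apply conv
    obtain ⟨v1, hv1⟩ := (hfs g).infinite_compl.nonempty
    obtain ⟨v2, hv2⟩ := ((hfs g).union (Set.finite_singleton v1)).infinite_compl.nonempty
    have hg1 : v1.ord g = 0 := by
      by_contra h
      exact hv1 h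
    have hg2 : v2.ord g = 0 := by
      by_contra h
      exact hv2 (Or.inl h)
    have h12 : v2 ≠ v1 := fun h => hv2 (Or.inr h)
    obtain ⟨M1, hM1, hM1'⟩ := key {v1} (Finset.singleton_nonempty _) (by rw [hSe]; exact Finset.empty_subset _)
    obtain ⟨M2, hM2, hM2'⟩ := key {v2} (Finset.singleton_nonempty _) (by rw [hSe]; exact Finset.empty_subset _)
    classical
    obtain ⟨f, hf⟩ := hWA k F {v1, v2} (fun v => if v = v1 then 1 else g) (max M1 M2 : ℤ)
    have hf1 := hf v1 (by simp)
    have hf2 := hf v2 (by simp)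
    simp only [if_true, if_neg h12] at hf1 hf2
    have hN1 : (1 : ℤ) ≤ M1 := by exact_mod_cast hM1
    have hN2 : (1 : ℤ) ≤ M2 := by exact_mod_cast hM2
    have hf0 : f ≠ 0 := by
      rintro rfl
      rcases hf1 with h | h
      · exact zero_ne_one h
      · rw [zero_sub, v1.ord_neg_one] at h
        have := le_max_left (M1 : ℤ) M2
        omega
    have hgf : g / f ≠ 0 := div_ne_zero hg0 hf0
    have e1 := hM1' f hf0 (by
      intro x hx
      rw [Finset.mem_singleton] at hx
      subst hx
      rcases hf1 with h | h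
      · exact Or.inl h
      · exact Or.inr ((le_max_left _ _).trans h))
    have e2 := hM2' (g / f) hgf (by
      intro x hx
      rw [Finset.mem_singleton] at hx
      subst hx
      rcases hf2 with h | h
      · left
        rw [h, div_self hg0]
      · by_cases hfg : f = g
        · left
          rw [hfg, div_self hg0]
        right
        have h3 : f - g ≠ 0 := sub_ne_zero.2 hfg
        have h4 : x.ord f = 0 := by
          have h5 := x.ord_add_eq hg0 h3 (by
            rw [hg2]
            have := le_max_left (M1 : ℤ) M2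
            omega)
          rw [add_sub_cancel] at h5
          rw [h5.2, hg2]
        have h6 : g / f - 1 = (-(f - g)) / f := by
          field_simp
          ring
        rw [h6, x.ord_div (neg_ne_zero.2 h3) hf0, x.ord_neg, h4, sub_zero]
        exact (le_max_right _ _).trans h)
    have e3 : (∑ᶠ v : FF.Place k F, v.ord g * (a v : ℤ)) =
        (∑ᶠ v : FF.Place k F, v.ord f * (a v : ℤ)) + ∑ᶠ v : FF.Place k F, v.ord (g / f) * (a v : ℤ) := by
      rw [← finsum_add_distrib]
      · apply finsum_congr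
        intro v
        rw [v.ord_div hg0 hf0]
        ring
      · exact (hfs f).subset fun v hv h0 => hv (by simp [h0])
      · exact (hfs (g / f)).subset fun v hv h0 => hv (by simp [h0])
    rw [e3]
    exact dvd_add e1 e2
  · obtain ⟨M0, hM0, h⟩ := key S hSn (Finset.Subset.refl _)
    exact ⟨M0, hM0, fun g hg hx => conv g (h g hg hx)⟩

end Pool.Agent.H387R3.ZT
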