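import Pool.Agent.KS6_3.ZL.H412R3.ZT.End
import Pool.Agent.KS6_3.ZL.H278R3.ZT.FDefs

/-! Project ZT, the final assembly with the corrected task F. -/

set_option autoImplicit false

open PowerSeries

namespace Pool.Agent.H387R3.ZT

open Pool.Agent.H387R3.ZT Pool.Agent.H707R3 Pool.Agent.H412R3.ZT

theorem taskEnd2 (hW : Weil) (hF : H278R3.ZT.TaskF2) (hG : TaskG) : Final := by
  classical
  intro p _ k F E _ _ _ _ _ _ _ _ _ h
  obtain ⟨c, hc, N₁, hN₁⟩ := ramification_Lfun k h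
  obtain ⟨N₂, hN₂⟩ := hG p k F E h
  obtain ⟨N₃, hN₃⟩ := hF p k F E h
  refine ⟨c, hc, max N₁ (max (N₂ + 1) N₃), ?_⟩
  intro K A hKA n hn
  obtain ⟨m, rfl⟩ : ∃ m, n = m + 1 := ⟨n - 1, by omega⟩
  have hm : N₂ ≤ m := by omega
  obtain ⟨s, hs, hfac⟩ := hN₂ K (fun n => (hKA n).1) m hm
  obtain ⟨Φ⟩ := h.group
  obtain ⟨χ₀, hχ₀⟩ := exists_char Φ.toMulEquiv (m + 1)
  have hB : ∀ χ : (E ≃ₐ[F] E) →* ℂ_[p]ˣ, orderOf χ = p ^ (m + 1) →
      ∃ B : Multiset ℂ_[p], Lfun k χ = recipProd B := fun χ hχ =>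
    hW p k F E h (m + 1) χ hχ (hN₃ K A hKA (m + 1) χ (by omega) hχ)
  choose! B hB' using hB
  have hfac2 : recipProd (A (m + 1)) = recipProd (B χ₀) *
      recipProd (A m + ∑ χ ∈ s.erase χ₀, B χ) := by
    rw [← (hKA (m + 1)).2, hfac]
    have h1 : ∏ χ ∈ s, Lfun k χ = recipProd (B χ₀) * recipProd (∑ χ ∈ s.erase χ₀, B χ) := by
      rw [← recipProd_finset, ← Finset.mul_prod_erase s _ ((hs χ₀).2 hχ₀), hB' χ₀ hχ₀]
      congr 1
      refine Finset.prod_congr rfl fun χ hχ => ?_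
      exact hB' χ ((hs χ).1 (Finset.mem_of_mem_erase hχ))
    rw [h1, recipProd_add, ← (hKA m).2]
    ring
  have hfin : FiniteDimensional F (K (m + 1)) := by
    apply Module.finite_of_finrank_pos
    rw [(hKA (m + 1)).1]
    exact pow_pos (Fact.out : p.Prime).pos _
  have hcurve : IsCurveFunctionField k (K (m + 1)) := layer_curve h (K (m + 1))
  have hint := integral_named hcurve (hKA (m + 1)).2
  have h3 := hN₁ (m + 1) (by omega) χ₀ hχ₀ (B χ₀) (hB' χ₀ hχ₀)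
  refine h3.trans ?_
  exact_mod_cast ramIdx_mono (genField_le hfac2) (ramIdx_ne_zero _ hint)

end Pool.Agent.H387R3.ZT
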