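import Pool.Agent.KS6_3.ZL.H387R3.ZT.Main
import Pool.Agent.KS6_3.ZL.H278R3.ZT.Layer

/-! Project ZT: the final statements. -/

set_option autoImplicit false

open PowerSeries Filter

namespace Pool.Agent.H387R3.ZT

variable {p : ℕ} [Fact p.Prime] {k F E : Type} [Field k] [Finite k] [CharP k p] [Field F]
  [Algebra k F] [Field E] [Algebra F E] [Algebra k E] [IsScalarTower k F E]

/-- `A` is the multiset of reciprocal roots of the numerator of the zeta function of `K`. -/
def RecipRoots (p : ℕ) [Fact p.Prime] (k K : Type) [Field k] [Field K] [Algebra k K]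
    (A : Multiset ℂ_[p]) : Prop :=
  zetaP p k K * (1 - X) * (1 - C (Nat.card k : ℂ_[p]) * X) = (A.map fun α => 1 - C α * X).prod

theorem exists_layer (h : H707R3.IsZpTower k F E p) (n : ℕ) :
    ∃ K : IntermediateField F E, Module.finrank F K = p ^ n := by
  obtain ⟨Φ₀⟩ := h.group
  have := h.galois
  refine ⟨H962R3.WeilL.lay Φ₀ n, ?_⟩
  rw [IntermediateField.finrank_eq_fixingSubgroup_index, H962R3.WeilL.fixing_lay,
    ← H278R3.ZT.index_ker_redHom Φ₀.toMulEquiv n]
  congr 1
  ext σ
  rw [H278R3.ZT.mem_ker_redHom, H962R3.WeilL.mem_sub]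
  rfl

theorem exists_roots (h : H707R3.IsZpTower k F E p) (K : IntermediateField F E) (n : ℕ)
    (hK : Module.finrank F K = p ^ n) : ∃ A : Multiset ℂ_[p], RecipRoots p k K A := by
  have hfd : FiniteDimensional F K := FiniteDimensional.of_finrank_pos (by
    rw [hK]; exact pow_pos (Fact.out : p.Prime).pos n)
  exact rat p k K (curve_layer h K)

/-- a compatible family through a given layer -/
theorem exists_family (h : H707R3.IsZpTower k F E p) (n : ℕ) (K : IntermediateField F E)
    (hK : Module.finrank F K = p ^ n) (A : Multiset ℂ_[p]) (hA : RecipRoots p k K A) :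
    ∃ (K' : ℕ → IntermediateField F E) (A' : ℕ → Multiset ℂ_[p]), Named k F E K' A' ∧ K' n = K ∧
      A' n = A := by
  classical
  choose L hL using exists_layer h
  choose B hB using fun m => exists_roots h (L m) m (hL m)
  refine ⟨Function.update L n K, Function.update B n A, ?_, Function.update_self _ _ _,
    Function.update_self _ _ _⟩
  intro m
  by_cases hm : m = n
  · subst hm
    rw [Function.update_self, Function.update_self]
    exact ⟨hK, hA⟩
  · rw [Function.update_of_ne hm, Function.update_of_ne hm]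
    exact ⟨hL m, hB m⟩

theorem linear (h : H707R3.IsZpTower k F E p) :
    ∃ c : ℝ, 0 < c ∧ ∃ N : ℕ, ∀ n, N ≤ n → ∀ K : IntermediateField F E,
      Module.finrank F K = p ^ n → ∀ A : Multiset ℂ_[p], RecipRoots p k K A →
        c ≤ ((p : ℝ) ^ n)⁻¹ *
          H707R3.ramIdx (IntermediateField.adjoin ℚ_[p] {α : ℂ_[p] | α ∈ A}) := by
  obtain ⟨c, hc, N, hN⟩ := final p k F E h
  refine ⟨c, hc, N, fun n hn K hK A hA => ?_⟩
  obtain ⟨K', A', hNm, rfl, rfl⟩ := exists_family h n K hK A hA
  have h1 := hN K' A' hNm n hn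
  have hp : (0 : ℝ) < (p : ℝ) ^ n := pow_pos (by exact_mod_cast (Fact.out : p.Prime).pos) n
  rw [inv_mul_eq_div, le_div_iff₀ hp]
  exact h1

theorem ram_large (h : H707R3.IsZpTower k F E p) (R : ℕ) :
    ∃ N : ℕ, ∀ n, N ≤ n → ∀ K : IntermediateField F E,
      Module.finrank F K = p ^ n → ∀ A : Multiset ℂ_[p], RecipRoots p k K A →
        R ≤ H707R3.ramIdx (IntermediateField.adjoin ℚ_[p] {α : ℂ_[p] | α ∈ A}) := by
  obtain ⟨c, hc, N, hN⟩ := linear h
  have hp : (1 : ℝ) < (p : ℝ) := by exact_mod_cast (Fact.out : p.Prime).one_lt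
  have h1 : Tendsto (fun n : ℕ => c * (p : ℝ) ^ n) atTop atTop :=
    (tendsto_pow_atTop_atTop_of_one_lt hp).const_mul_atTop hc
  obtain ⟨N', hN'⟩ := Filter.eventually_atTop.1 (h1.eventually_ge_atTop (R : ℝ))
  refine ⟨max N N', fun n hn K hK A hA => ?_⟩
  have h2 := hN n ((le_max_left _ _).trans hn) K hK A hA
  have h3 := hN' n ((le_max_right _ _).trans hn)
  have hp' : (0 : ℝ) < (p : ℝ) ^ n := pow_pos (by exact_mod_cast (Fact.out : p.Prime).pos) n
  rw [inv_mul_eq_div, le_div_iff₀ hp'] at h2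
  exact_mod_cast h3.trans h2

theorem deg_large (h : H707R3.IsZpTower k F E p) (R : ℕ) :
    ∃ N : ℕ, ∀ n, N ≤ n → ∀ K : IntermediateField F E,
      Module.finrank F K = p ^ n → ∀ A : Multiset ℂ_[p], RecipRoots p k K A →
        R ≤ Module.finrank ℚ_[p] (IntermediateField.adjoin ℚ_[p] {α : ℂ_[p] | α ∈ A}) := by
  obtain ⟨N, hN⟩ := ram_large h R
  refine ⟨N, fun n hn K hK A hA => (hN n hn K hK A hA).trans ?_⟩
  obtain ⟨K', A', hNm, hK', hA'⟩ := exists_family h n K hK A hA
  have h1 := isIntegral_of_named h K' A' hNm n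
  rw [hA'] at h1
  exact ramIdx_le_finrank A h1

end Pool.Agent.H387R3.ZT
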