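import Pool.Agent.KS6_3.ZL.H387R3.ZT.Stmts2
import Pool.Agent.KS6_3.ZL.H525R3.FFp.Bridge
import Pool.Agent.KS6_3.ZL.H962R3.Cnt
import Pool.Agent.KS6_3.ZL.H387R3.ZT.Alg

/-! Project ZT, rationality of the zeta function. -/

set_option autoImplicit false

open PowerSeries

namespace Pool.Agent.H387R3.ZT

open Pool.Agent.H962R3.Cnt

/-- effective divisors as functions to `ℕ` -/
theorem card_eff {ι : Type} (d : ι → ℕ) (m : ℕ) :
    Nat.card (Eff d m) = Nat.card {D : ι →₀ ℕ // (D.sum fun v n => n * d v) = m} := by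
  classical
  symm
  refine Nat.card_congr (Equiv.ofBijective
    (fun D => (⟨D.1.mapRange (fun n : ℕ => (n : ℤ)) rfl, ?_⟩ : Eff d m)) ⟨?_, ?_⟩)
  · refine ⟨fun v => by simp, ?_⟩
    have h := congrArg (Nat.cast (R := ℤ)) D.2
    unfold Deg
    rw [Finsupp.sum_mapRange_index (by intro a; simp)]
    refine Eq.trans ?_ h
    simp [Finsupp.sum]
  · intro D D' hD
    apply Subtype.ext
    ext v
    have := congrArg (fun E : Eff d m => E.1 v) hD
    simpa using this
  · rintro ⟨D, hD0, hD⟩
    refine ⟨⟨D.mapRange Int.toNat rfl, ?_⟩, ?_⟩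
    · rw [Finsupp.sum_mapRange_index (by intro a; simp)]
      unfold Deg at hD
      zify
      rw [← hD]
      simp only [Finsupp.sum]
      refine Finset.sum_congr rfl fun v _ => ?_
      rw [Int.toNat_of_nonneg (hD0 v)]
    · apply Subtype.ext
      ext v
      simp [Int.toNat_of_nonneg (hD0 v)]

open scoped PowerSeries.WithPiTopology in
theorem coeff_zeta_bnum (p : ℕ) [Fact p.Prime] (k F : Type) [Field k] [Finite k] [Field F]
    [Algebra k F] (h : H707R3.IsCurveFunctionField k F) (m : ℕ) :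
    coeff m (zetaP p k F) = (bnum k F m : ℂ_[p]) := by
  classical
  have hd : ∀ v : H707R3.Place k F, v.deg ≠ 0 := fun v => H707R3.deg_ne_zero h v
  have hfin : ∀ m, {v : H707R3.Place k F | v.deg ≤ m}.Finite := fun m => H707R3.finite_deg_le h m
  have h1 : zetaP p k F = ∏' v : H707R3.Place k F, (1 - C (1 : ℂ_[p]) * X ^ v.deg)⁻¹ := by
    rw [zetaP]
    congr 1
    funext v
    simp
  rw [h1, coeff_euler (fun v : H707R3.Place k F => v.deg) hd hfin (fun _ => (1 : ℂ_[p])) m]
  have h2 : ∀ D : H707R3.Place k F →₀ ℤ, Val (fun _ => (1 : ℂ_[p])) D = 1 := by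
    intro D
    simp [Val, Finsupp.prod]
  simp only [h2, Finset.sum_const, nsmul_eq_mul, mul_one]
  congr 1
  rw [← Set.ncard_eq_toFinset_card _ (eff_finite (fun v : H707R3.Place k F => v.deg) hd hfin m),
    ← Nat.card_coe_set_eq]
  rw [card_eff]
  unfold bnum
  have : PerfectField k := inferInstance
  refine Nat.card_congr ((Equiv.subtypeEquiv (Finsupp.domCongr (H525R3.FFp.bridge h)).toEquiv ?_))
  intro D
  have : ((Finsupp.domCongr (H525R3.FFp.bridge h) D).sum fun v n => n * v.deg) =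
      D.sum fun v n => n * v.deg := by
    rw [Finsupp.domCongr_apply, Finsupp.equivMapDomain_eq_mapDomain,
      Finsupp.sum_mapDomain_index (by intro b; simp) (by intro b m n; ring)]
    refine Finsupp.sum_congr fun v _ => ?_
    rw [H525R3.FFp.bridge_deg]
  exact ⟨fun h' => this.trans h', fun h' => this.symm.trans h'⟩

open scoped PowerSeries.WithPiTopology in
theorem taskRat : TaskRat := by
  classical
  intro hS hE p _ k F _ _ _ _ h
  have : FF.IsFF k F := H525R3.FFp.isFF h
  have hconst : ∀ a : F, IsAlgebraic k a → a ∈ (algebraMap k F).range := fun a ha =>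
    h.algClosed a ha
  obtain ⟨hh, m0, γ, hex⟩ := hE k F hconst (hS k F hconst)
  have hq : 2 ≤ Nat.card k := by
    have := Finite.one_lt_card (α := k)
    omega
  have hb : ∀ m, m0 ≤ m → ((bnum k F m : ℂ_[p])) * ((Nat.card k : ℂ_[p]) - 1) =
      hh * ((Nat.card k : ℂ_[p]) ^ (m - γ).toNat - 1) := by
    intro m hm
    have h1 := congrArg (Nat.cast (R := ℂ_[p])) (hex m hm).2
    rw [Nat.cast_mul, Nat.cast_mul, Nat.cast_sub (by omega), Nat.cast_sub (Nat.one_le_pow _ _ (by omega)),
      Nat.cast_pow, Nat.cast_one] at h1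
    exact h1
  have hq1 : ((Nat.card k : ℂ_[p]) - 1) ≠ 0 := by
    rw [sub_ne_zero]
    exact_mod_cast (by omega : Nat.card k ≠ 1)
  apply exists_recipProd _ _ (m0 + 2)
  · intro j hj
    obtain ⟨i, rfl⟩ : ∃ i, j = i + 2 := ⟨j - 2, by omega⟩
    have hi : m0 ≤ i := by omega
    have e1 : coeff (i + 2) (zetaP p k F * (1 - X) * (1 - C (Nat.card k : ℂ_[p]) * X)) =
        (bnum k F (i + 2) : ℂ_[p]) - bnum k F (i + 1) -
          Nat.card k * ((bnum k F (i + 1) : ℂ_[p]) - bnum k F i) := by
      have : zetaP p k F * (1 - X) * (1 - C (Nat.card k : ℂ_[p]) * X) =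
          zetaP p k F - zetaP p k F * X - C (Nat.card k : ℂ_[p]) * ((zetaP p k F - zetaP p k F * X) * X) := by
        ring
      rw [this]
      simp only [map_sub, coeff_C_mul, coeff_succ_mul_X, coeff_zeta_bnum p k F h]
    rw [e1]
    apply mul_right_cancel₀ hq1
    have n0 : 0 ≤ (i : ℤ) - γ := (hex i hi).1
    have a0 := hb i hi
    have a1 := hb (i + 1) (by omega)
    have a2 := hb (i + 2) (by omega)
    have t1 : (((i + 1 : ℕ) : ℤ) - γ).toNat = ((i : ℤ) - γ).toNat + 1 := by omega
    have t2 : (((i + 2 : ℕ) : ℤ) - γ).toNat = ((i : ℤ) - γ).toNat + 2 := by omega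
    rw [t1] at a1
    rw [t2] at a2
    linear_combination a2 - (1 + (Nat.card k : ℂ_[p])) * a1 + (Nat.card k : ℂ_[p]) * a0
  · have h0 : coeff 0 (zetaP p k F) = 1 := by
      have h1 : zetaP p k F = ∏' v : H707R3.Place k F, (1 - C (1 : ℂ_[p]) * X ^ v.deg)⁻¹ := by
        rw [zetaP]
        congr 1
        funext v
        simp
      rw [h1]
      exact coeff_zero_euler (fun v : H707R3.Place k F => v.deg)
        (fun v => H707R3.deg_ne_zero h v) (fun m => H707R3.finite_deg_le h m) _
    rw [coeff_zero_eq_constantCoeff_apply, map_mul, map_mul, ← coeff_zero_eq_constantCoeff_apply, h0]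
    simp

end Pool.Agent.H387R3.ZT
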